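import Pool.Agent.helper11.RPQ.SpecI

set_option autoImplicit false

open scoped MatrixGroups ContDiff Topology UpperHalfPlane ComplexConjugate ENNReal
open UpperHalfPlane MeasureTheory Filter Set

namespace Pool.Agent.RPQ

open Pool.Agent.RS
open Pool.Agent.MS (BA BB st pf gk Dk amk)

/-- the functions of the final statement -/
noncomputable def FNI_u (J : ℕ → ℕ) (χ : (k : ℕ) → Fin (J k) → ℍ → ℝ) (k j : ℕ) (z : ℍ) : ℝ :=
  if h : j < J k then amp k * χ k ⟨j, h⟩ z else 0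

theorem FNI_sum (J : ℕ → ℕ) (χ : (k : ℕ) → Fin (J k) → ℍ → ℝ) (k : ℕ) (ξ : ℕ → ℝ) (z : ℍ) :
    ∑ j ∈ Finset.range (J k), ξ j * FNI_u J χ k j z = amp k * VV (χ k) (fun j => ξ (j : ℕ)) z := by
  rw [Finset.sum_range]
  unfold VV
  rw [Finset.mul_sum]
  refine Finset.sum_congr rfl fun i _ => ?_
  have h : FNI_u J χ k (i : ℕ) z = amp k * χ k i z := by
    unfold FNI_u
    rw [dif_pos i.2]
  rw [h]
  ring

theorem FNI_tsum (J : ℕ → ℕ) (χ : (k : ℕ) → Fin (J k) → ℍ → ℝ) (ζ : ℕ × ℕ → ℝ) :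
    (fun z : ℍ => ∑' k, ∑ j ∈ Finset.range (J k), ζ (k, j) * FNI_u J χ k j z) = rf J χ ζ := by
  funext z
  unfold rf
  refine tsum_congr fun k => ?_
  exact FNI_sum J χ k (fun j => ζ (k, j)) z

theorem FNI_proof (hFAM : FAM_stmt) (hRFP : RFP_stmt) (hBCI : BCI_stmt) : FNI_stmt := by
  intro Γ hΓ
  obtain ⟨κ, C0, k0, J, p, χ, hF⟩ := hFAM Γ hΓ
  refine ⟨J, FNI_u J χ, ?_, ?_, ?_, ?_⟩
  · intro k j
    by_cases h : j < J k
    · have hk : k0 ≤ k := by
        by_contra hk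
        have := hF.zero k (by omega)
        omega
      have hn := hF.net k hk
      have he : FNI_u J χ k j = fun z => amp k * χ k ⟨j, h⟩ z := by
        funext z
        unfold FNI_u
        rw [dif_pos h]
      rw [he]
      refine ⟨?_, ?_, ?_⟩
      · exact ContDiffOn.mul contDiffOn_const (hn.smooth ⟨j, h⟩)
      · exact ⟨continuous_const.mul (hn.inv ⟨j, h⟩).1, fun γ z => by
          have h5 := (hn.inv ⟨j, h⟩).2 γ z
          simp only [h5]⟩
      · intro z
        exact mul_nonneg (Real.exp_pos _).le (hn.bd ⟨j, h⟩ z).1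
    · have he : FNI_u J χ k j = fun _ => 0 := by
        funext z
        unfold FNI_u
        rw [dif_neg h]
      rw [he]
      refine ⟨?_, ?_, ?_⟩
      · exact contDiffOn_const
      · exact ⟨continuous_const, fun γ z => rfl⟩
      · intro z
        exact le_refl _
  · intro n
    obtain ⟨c, hc, -, h⟩ := hF.sum n
    refine ⟨c, hc, fun k ξ hξ => ?_⟩
    have h1 := h k (fun j => ξ (j : ℕ)) (fun j => hξ _)
    have he : (fun z : ℍ => ∑ j ∈ Finset.range (J k), ξ j * FNI_u J χ k j z) =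
        fun z => amp k * VV (χ k) (fun j => ξ (j : ℕ)) z := by
      funext z
      exact FNI_sum J χ k ξ z
    rw [he]
    exact h1
  · intro ζ hζ
    rw [FNI_tsum]
    have h0 : QU.Inv Γ (fun _ : ℍ => (0 : ℝ)) := ⟨continuous_const, fun γ z => rfl⟩
    have h1 := (hRFP Γ κ C0 k0 J p χ (fun _ => 0) 0 hΓ hF h0 (fun z w => by simp)).2 ζ hζ
    exact h1.1
  · intro f0 L hf hL
    have h := hBCI Γ κ C0 k0 J p χ f0 L hΓ hF hf hL
    filter_upwards [h] with ζ hζ ε hε
    obtain ⟨δ, r0, hδ, hr0, h2⟩ := hζ ε hε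
    refine ⟨δ, r0, hδ, hr0, fun r t hr ht1 ht2 => ?_⟩
    have h3 := h2 r t hr ht1 ht2
    have he : (fun z : ℍ => t * (f0 z + ∑' k, ∑ j ∈ Finset.range (J k), ζ (k, j) * FNI_u J χ k j z)) =
        fun z => t * (f0 z + rf J χ ζ z) := by
      funext z
      rw [← FNI_tsum J χ ζ]
    rw [he]
    exact h3

end Pool.Agent.RPQ
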